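import Pool.Agent.Run7.h148.AX.Stm1

/-! Piece CRT of project AX. -/

set_option autoImplicit false

open MeasureTheory Set Filter Topology
open scoped ENNReal ContDiff FourierTransform

namespace Pool.Agent.Run7.h503.AX

open Pool.Agent.Run7.h148.AX

theorem cv_meas2 {a b : ℝ → E3 → ℝ≥0∞} (ha : Measurable (Function.uncurry a))
    (hb : Measurable (Function.uncurry b)) :
    Measurable fun p : ℝ × E3 => cv (a p.1) (b p.1) p.2 := by
  unfold cv
  have h1 : Measurable fun q : (ℝ × E3) × E3 => a q.1.1 (q.1.2 - q.2) :=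
    ha.comp (f := fun q : (ℝ × E3) × E3 => (q.1.1, q.1.2 - q.2)) (by fun_prop)
  have h2 : Measurable fun q : (ℝ × E3) × E3 => b q.1.1 q.2 :=
    hb.comp (f := fun q : (ℝ × E3) × E3 => (q.1.1, q.2)) (by fun_prop)
  exact Measurable.lintegral_prod_right' (h1.mul h2)

theorem nw_meas : Measurable nw := by unfold nw; fun_prop

theorem iw_meas : Measurable iw := by unfold iw; fun_prop

theorem src_meas {f h m : ℝ → E3 → ℝ≥0∞} (hf : Measurable (Function.uncurry f))
    (hh : Measurable (Function.uncurry h)) (hm : Measurable (Function.uncurry m)) :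
    Measurable (Function.uncurry (src f h m)) := by
  have h1 := cv_meas2 hh hm
  have h2 := cv_meas2 hm hh
  have h3 := cv_meas2 hm hm
  have h4 : Measurable fun p : ℝ × E3 => nw p.2 := nw_meas.comp measurable_snd
  have : Function.uncurry (src f h m) = fun p : ℝ × E3 => Function.uncurry f p +
      40 * nw p.2 * (cv (h p.1) (m p.1) p.2 + cv (m p.1) (h p.1) p.2 + cv (m p.1) (m p.1) p.2) := by
    funext p; rfl
  rw [this]
  exact hf.add ((h4.const_mul 40).mul ((h1.add h2).add h3))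

theorem t_CRT : S_CR1 → S_CR2 → S_ITM → S_CRT := by
  intro hCR1 hCR2 hITM κ K T η H f h hκ hK hT hη hH hH0 hHK hf hh hfh hfi hsmall
  set μ : ℝ := 25600 / κ with hμ
  have hμ0 : 0 ≤ μ := by positivity
  have hitm : ∀ n, Measurable (Function.uncurry (itm κ f h n)) := fun n => (hITM.2 κ f h hf hh n).1
  -- the weighted bounds
  have key : ∀ n,
      (∀ t ∈ Icc 0 T, th μ H t * (∫⁻ ξ, iw ξ * itm κ f h n t ξ) ≤ ENNReal.ofReal (4 * η)) ∧
      ENNReal.ofReal κ * (∫⁻ t in Ioc 0 T, th μ H t * ∫⁻ ξ, nw ξ * itm κ f h n t ξ)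
        ≤ ENNReal.ofReal (4 * η) ∧
      (∫⁻ t in Ioc 0 T, ENNReal.ofReal (μ * H t ^ 2) *
        (th μ H t * ∫⁻ ξ, iw ξ * itm κ f h n t ξ)) ≤ ENNReal.ofReal (4 * η) := by
    intro n
    induction n with
    | zero =>
      refine ⟨fun t _ => ?_, ?_, ?_⟩ <;> simp [itm]
    | succ n ih =>
      obtain ⟨h1, h2, h3⟩ := ih
      have hb := hCR2 κ K T η (4 * η) H f h (itm κ f h n) hκ hK hT hη (by positivity) hH hH0 hHK
        hf hh (hitm n) hfh hfi h1 h2 h3
      have hE : 0 < Real.exp (μ * K) := Real.exp_pos _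
      have hb2 : η + 4 * η / 2 + 40 / κ * Real.exp (25600 / κ * K) * (4 * η) ^ 2 ≤ 4 * η := by
        rw [← hμ]
        have h5 : 40 / κ * Real.exp (μ * K) * (4 * η) ^ 2
            = (640 * η * Real.exp (μ * K)) * η / κ := by ring
        have h6 : (640 * η * Real.exp (μ * K)) * η / κ ≤ η := by
          rw [div_le_iff₀ hκ]
          have h7 : 640 * η * Real.exp (μ * K) ≤ κ := by
            have : 0 ≤ η * Real.exp (μ * K) := by positivity
            nlinarith
          calc 640 * η * Real.exp (μ * K) * η ≤ κ * η := by gcongr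
            _ = η * κ := by ring
        rw [h5]; linarith
      have hb3 : (∫⁻ s in Ioc 0 T, th μ H s * ∫⁻ ξ, iw ξ * src f h (itm κ f h n) s ξ)
          ≤ ENNReal.ofReal (4 * η) := hb.trans (ENNReal.ofReal_le_ofReal hb2)
      obtain ⟨c1, c2, c3⟩ := hCR1 κ μ T H (src f h (itm κ f h n)) hκ hμ0 hT hH
        (src_meas hf hh (hitm n))
      exact ⟨fun t ht => (c1 t ht).trans hb3, c2.trans hb3, c3.trans hb3⟩
  -- removing the weight
  have hint : ∀ t ∈ Icc 0 T, ∫ s in (0 : ℝ)..t, H s ^ 2 ≤ K := by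
    intro t ht
    refine le_trans ?_ hHK
    have hsub : (∫ s in (0 : ℝ)..T, H s ^ 2) = (∫ s in (0 : ℝ)..t, H s ^ 2)
        + ∫ s in t..T, H s ^ 2 :=
      (intervalIntegral.integral_add_adjacent_intervals
        ((hH.pow 2).intervalIntegrable _ _) ((hH.pow 2).intervalIntegrable _ _)).symm
    have hnn : 0 ≤ ∫ s in t..T, H s ^ 2 :=
      intervalIntegral.integral_nonneg ht.2 (fun s _ => sq_nonneg _)
    linarith
  have hth : ∀ t ∈ Icc 0 T, 1 ≤ ENNReal.ofReal (Real.exp (μ * K)) * th μ H t := by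
    intro t ht
    unfold th
    rw [← ENNReal.ofReal_mul (Real.exp_pos _).le, ← Real.exp_add, ENNReal.one_le_ofReal]
    refine Real.one_le_exp ?_
    have := mul_le_mul_of_nonneg_left (hint t ht) hμ0
    linarith
  intro n
  obtain ⟨k1, k2, -⟩ := key n
  have hfin : ENNReal.ofReal (Real.exp (μ * K)) * ENNReal.ofReal (4 * η)
      = ENNReal.ofReal (4 * η * Real.exp (25600 / κ * K)) := by
    rw [← ENNReal.ofReal_mul (Real.exp_pos _).le, mul_comm]
  refine ⟨fun t ht => ?_, ?_⟩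
  · calc (∫⁻ ξ, iw ξ * itm κ f h n t ξ)
        ≤ (ENNReal.ofReal (Real.exp (μ * K)) * th μ H t) * (∫⁻ ξ, iw ξ * itm κ f h n t ξ) := by
          calc (∫⁻ ξ, iw ξ * itm κ f h n t ξ) = 1 * (∫⁻ ξ, iw ξ * itm κ f h n t ξ) :=
                (one_mul _).symm
            _ ≤ _ := by gcongr; exact hth t ht
      _ = ENNReal.ofReal (Real.exp (μ * K)) * (th μ H t * (∫⁻ ξ, iw ξ * itm κ f h n t ξ)) := by
          rw [mul_assoc]
      _ ≤ ENNReal.ofReal (Real.exp (μ * K)) * ENNReal.ofReal (4 * η) := by gcongr; exact k1 t ht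
      _ = _ := hfin
  · calc ENNReal.ofReal κ * (∫⁻ t in Ioc 0 T, ∫⁻ ξ, nw ξ * itm κ f h n t ξ)
        ≤ ENNReal.ofReal κ * (∫⁻ t in Ioc 0 T, ENNReal.ofReal (Real.exp (μ * K)) *
          (th μ H t * ∫⁻ ξ, nw ξ * itm κ f h n t ξ)) := by
          refine mul_le_mul' le_rfl ?_
          refine setLIntegral_mono' measurableSet_Ioc (fun t ht => ?_)
          rw [← mul_assoc]
          calc (∫⁻ ξ, nw ξ * itm κ f h n t ξ) = 1 * (∫⁻ ξ, nw ξ * itm κ f h n t ξ) :=
                (one_mul _).symm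
            _ ≤ _ := by gcongr; exact hth t ⟨ht.1.le, ht.2⟩
      _ = ENNReal.ofReal (Real.exp (μ * K)) * (ENNReal.ofReal κ * (∫⁻ t in Ioc 0 T,
          (th μ H t * ∫⁻ ξ, nw ξ * itm κ f h n t ξ))) := by
          rw [lintegral_const_mul' _ _ ENNReal.ofReal_ne_top]; ring
      _ ≤ ENNReal.ofReal (Real.exp (μ * K)) * ENNReal.ofReal (4 * η) := by gcongr
      _ = _ := hfin

end Pool.Agent.Run7.h503.AX
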