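import Pool.Agent.Run7.h148.AX.Stm1

/-! Piece GRO of project AX. -/

set_option autoImplicit false

open MeasureTheory Set Filter Topology
open scoped ENNReal ContDiff FourierTransform

namespace Pool.Agent.Run7.h503.AX

theorem kernel_bound (L : NNReal) : ∃ Λ : ℝ, 0 < Λ ∧ ∀ t : ℝ, 0 ≤ t →
    (∫⁻ s in Ioc 0 t, (L * ENNReal.ofReal ((t - s) ^ (-(1 / 2) : ℝ))) *
      ENNReal.ofReal (Real.exp (Λ * s))) ≤ ENNReal.ofReal (Real.exp (Λ * t)) * (1 / 4) := by
  set Λ : ℝ := 16 * Real.pi * (L : ℝ) ^ 2 + 1 with hΛ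
  have hΛ0 : 0 < Λ := by positivity
  refine ⟨Λ, hΛ0, fun t ht => ?_⟩
  -- the Gamma integral
  set G : ℝ → ℝ := fun r => r ^ (-(1 / 2) : ℝ) * Real.exp (-(Λ * r)) with hG
  have hGi : IntegrableOn G (Ioi 0) := by
    have h := integrableOn_rpow_mul_exp_neg_mul_rpow (p := 1) (s := (-(1 / 2) : ℝ)) (b := Λ)
      (by norm_num) one_pos hΛ0
    refine h.congr_fun (fun x hx => ?_) measurableSet_Ioi
    simp [hG, Real.rpow_one]
  have hGint : ∫ r in Ioi 0, G r = (1 / Λ) ^ ((1 / 2 : ℝ)) * √Real.pi := by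
    have h := Real.integral_rpow_mul_exp_neg_mul_Ioi (a := 1 / 2) (r := Λ) (by norm_num) hΛ0
    rw [Real.Gamma_one_half_eq] at h
    rw [← h]
    refine setIntegral_congr_fun measurableSet_Ioi (fun x hx => ?_)
    simp only [hG]
    congr 2
    norm_num
  have hGnn : ∀ r ∈ Ioi (0 : ℝ), 0 ≤ G r := fun r hr => by
    have : 0 < r := hr
    simp only [hG]; positivity
  have hGl : ∫⁻ r in Ioi 0, ENNReal.ofReal (G r) =
      ENNReal.ofReal ((1 / Λ) ^ ((1 / 2 : ℝ)) * √Real.pi) := by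
    rw [← hGint, ofReal_integral_eq_lintegral_ofReal hGi]
    exact (ae_restrict_iff' measurableSet_Ioi).2 (Eventually.of_forall hGnn)
  have hnum : (L : ℝ) * ((1 / Λ) ^ ((1 / 2 : ℝ)) * √Real.pi) ≤ 1 / 4 := by
    rw [← Real.sqrt_eq_rpow, ← Real.sqrt_mul (by positivity)]
    have h1 : (L : ℝ) * √(1 / Λ * Real.pi) = √((L : ℝ) ^ 2 * (1 / Λ * Real.pi)) := by
      rw [Real.sqrt_mul (sq_nonneg (L : ℝ)), Real.sqrt_sq L.coe_nonneg]
    rw [h1]
    have h2 : (L : ℝ) ^ 2 * (1 / Λ * Real.pi) ≤ (1 / 4) ^ 2 := by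
      have : (L : ℝ) ^ 2 * (1 / Λ * Real.pi) = (Real.pi * (L : ℝ) ^ 2) / Λ := by ring
      rw [this, div_le_iff₀ hΛ0, hΛ]
      nlinarith [Real.pi_pos, sq_nonneg (L : ℝ)]
    calc √((L : ℝ) ^ 2 * (1 / Λ * Real.pi)) ≤ √((1 / 4) ^ 2) := Real.sqrt_le_sqrt h2
      _ = 1 / 4 := Real.sqrt_sq (by norm_num)
  -- pointwise rewriting
  have hpt : ∀ s : ℝ, ENNReal.ofReal ((t - s) ^ (-(1 / 2) : ℝ)) * ENNReal.ofReal (Real.exp (Λ * s))
      = ENNReal.ofReal (Real.exp (Λ * t)) * (ENNReal.ofReal ((t - s) ^ (-(1 / 2) : ℝ)) *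
        ENNReal.ofReal (Real.exp (-(Λ * (t - s))))) := by
    intro s
    have : Real.exp (Λ * s) = Real.exp (Λ * t) * Real.exp (-(Λ * (t - s))) := by
      rw [← Real.exp_add]; congr 1; ring
    rw [this, ENNReal.ofReal_mul (Real.exp_pos _).le]
    ring
  have hstep : (∫⁻ s in Ioc 0 t, ENNReal.ofReal ((t - s) ^ (-(1 / 2) : ℝ)) *
        ENNReal.ofReal (Real.exp (-(Λ * (t - s))))) ≤
      ENNReal.ofReal ((1 / Λ) ^ ((1 / 2 : ℝ)) * √Real.pi) := by
    set F : ℝ → ℝ≥0∞ := (Ici (0 : ℝ)).indicator (fun r => ENNReal.ofReal (r ^ (-(1 / 2) : ℝ)) *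
      ENNReal.ofReal (Real.exp (-(Λ * r)))) with hF
    calc (∫⁻ s in Ioc 0 t, ENNReal.ofReal ((t - s) ^ (-(1 / 2) : ℝ)) *
        ENNReal.ofReal (Real.exp (-(Λ * (t - s)))))
        ≤ ∫⁻ s, F (t - s) := by
          rw [← lintegral_indicator measurableSet_Ioc]
          refine lintegral_mono (fun s => ?_)
          by_cases hs : s ∈ Ioc 0 t
          · have h2 : t - s ∈ Ici (0 : ℝ) := by simpa using hs.2
            simp only [indicator_of_mem hs, hF, indicator_of_mem h2]; exact le_rfl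
          · simp only [indicator_of_notMem hs]; exact zero_le
      _ = ∫⁻ r, F r := lintegral_sub_left_eq_self F t
      _ = ∫⁻ r in Ioi 0, ENNReal.ofReal (G r) := by
          rw [hF, lintegral_indicator measurableSet_Ici, setLIntegral_congr Ioi_ae_eq_Ici.symm]
          refine setLIntegral_congr_fun measurableSet_Ioi (fun r hr => ?_)
          have hr0 : (0 : ℝ) < r := hr
          simp only [hG]
          rw [ENNReal.ofReal_mul (by positivity)]
      _ = _ := hGl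
  calc (∫⁻ s in Ioc 0 t, (L * ENNReal.ofReal ((t - s) ^ (-(1 / 2) : ℝ))) *
      ENNReal.ofReal (Real.exp (Λ * s)))
      = ∫⁻ s in Ioc 0 t, (L * ENNReal.ofReal (Real.exp (Λ * t))) *
        (ENNReal.ofReal ((t - s) ^ (-(1 / 2) : ℝ)) *
          ENNReal.ofReal (Real.exp (-(Λ * (t - s))))) := by
        refine lintegral_congr (fun s => ?_)
        rw [mul_assoc, hpt s, ← mul_assoc]
    _ = (L * ENNReal.ofReal (Real.exp (Λ * t))) *
        ∫⁻ s in Ioc 0 t, (ENNReal.ofReal ((t - s) ^ (-(1 / 2) : ℝ)) *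
          ENNReal.ofReal (Real.exp (-(Λ * (t - s))))) := by
        rw [lintegral_const_mul']
        exact ENNReal.mul_ne_top ENNReal.coe_ne_top ENNReal.ofReal_ne_top
    _ ≤ (L * ENNReal.ofReal (Real.exp (Λ * t))) *
        ENNReal.ofReal ((1 / Λ) ^ ((1 / 2 : ℝ)) * √Real.pi) := by gcongr
    _ = ENNReal.ofReal (Real.exp (Λ * t)) *
        ENNReal.ofReal ((L : ℝ) * ((1 / Λ) ^ ((1 / 2 : ℝ)) * √Real.pi)) := by
        rw [ENNReal.ofReal_mul L.coe_nonneg, ENNReal.ofReal_coe_nnreal]; ring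
    _ ≤ ENNReal.ofReal (Real.exp (Λ * t)) * (1 / 4) := by
        gcongr
        calc ENNReal.ofReal ((L : ℝ) * ((1 / Λ) ^ ((1 / 2 : ℝ)) * √Real.pi))
            ≤ ENNReal.ofReal (1 / 4) := ENNReal.ofReal_le_ofReal hnum
          _ = 1 / 4 := by
            rw [ENNReal.ofReal_div_of_pos (by norm_num)]; norm_num

theorem t_GRO : Pool.Agent.Run7.h148.AX.S_GRO := by
  intro L D T
  obtain ⟨Λ, hΛ0, hker⟩ := kernel_bound L
  refine ⟨Real.toNNReal (2 * D * Real.exp (Λ * T)), fun a y ha hy hy4 h0 hstep => ?_⟩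
  have key : ∀ n, ∀ t ∈ Icc 0 T, a n t ≤ 2 * D * ENNReal.ofReal (Real.exp (Λ * t)) := by
    intro n
    induction n with
    | zero => intro t ht; rw [h0]; exact zero_le
    | succ n ih =>
      intro t ht
      refine (hstep n t ht).trans ?_
      set E : ℝ≥0∞ := ENNReal.ofReal (Real.exp (Λ * t)) with hE
      have hE1 : 1 ≤ E := by
        rw [hE, ENNReal.one_le_ofReal]
        exact Real.one_le_exp (mul_nonneg hΛ0.le ht.1)
      have hD2 : (2 * (D : ℝ≥0∞)) ≠ ⊤ := ENNReal.mul_ne_top (by norm_num) ENNReal.coe_ne_top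
      have h1 : (∫⁻ s in Ioc 0 t, (L * ENNReal.ofReal ((t - s) ^ (-(1 / 2) : ℝ)) + y n s) * a n s)
          ≤ ∫⁻ s in Ioc 0 t, ((2 * D) * ((L * ENNReal.ofReal ((t - s) ^ (-(1 / 2) : ℝ))) *
            ENNReal.ofReal (Real.exp (Λ * s))) + (2 * D * E) * y n s) := by
        refine setLIntegral_mono' measurableSet_Ioc (fun s hs => ?_)
        have hsT : s ∈ Icc 0 T := ⟨hs.1.le, hs.2.trans ht.2⟩
        have hsE : ENNReal.ofReal (Real.exp (Λ * s)) ≤ E :=
          ENNReal.ofReal_le_ofReal (Real.exp_le_exp.2 (mul_le_mul_of_nonneg_left hs.2 hΛ0.le))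
        calc (L * ENNReal.ofReal ((t - s) ^ (-(1 / 2) : ℝ)) + y n s) * a n s
            ≤ (L * ENNReal.ofReal ((t - s) ^ (-(1 / 2) : ℝ)) + y n s) *
              (2 * D * ENNReal.ofReal (Real.exp (Λ * s))) := by gcongr; exact ih s hsT
          _ = (2 * D) * ((L * ENNReal.ofReal ((t - s) ^ (-(1 / 2) : ℝ))) *
            ENNReal.ofReal (Real.exp (Λ * s))) +
              (2 * D * ENNReal.ofReal (Real.exp (Λ * s))) * y n s := by ring
          _ ≤ _ := by gcongr
      have hm : Measurable fun s : ℝ => (2 * (D : ℝ≥0∞)) * ((L * ENNReal.ofReal ((t - s) ^ (-(1 / 2) : ℝ))) *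
            ENNReal.ofReal (Real.exp (Λ * s))) := by fun_prop
      have h2 : (∫⁻ s in Ioc 0 t, ((2 * D) * ((L * ENNReal.ofReal ((t - s) ^ (-(1 / 2) : ℝ))) *
            ENNReal.ofReal (Real.exp (Λ * s))) + (2 * D * E) * y n s))
          ≤ (2 * D) * (E * (1 / 4)) + (2 * D * E) * (1 / 4) := by
        rw [lintegral_add_left hm, lintegral_const_mul' _ _ hD2, lintegral_const_mul _ (hy n)]
        gcongr
        · exact hker t ht.1
        · refine le_trans (lintegral_mono_set (Ioc_subset_Ioc_right ht.2)) (hy4 n)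
      have h3 : (D : ℝ≥0∞) ≤ (2 * D * E) * (1 / 2) := by
        calc (D : ℝ≥0∞) = (2 * D * 1) * (1 / 2) := by
              rw [mul_one, mul_comm (2 : ℝ≥0∞), mul_assoc]
              rw [show (2 : ℝ≥0∞) * (1 / 2) = 1 from ?_, mul_one]
              rw [one_div]; exact ENNReal.mul_inv_cancel (by norm_num) (by norm_num)
          _ ≤ _ := by gcongr
      calc (D : ℝ≥0∞) + _ ≤ (2 * D * E) * (1 / 2) + ((2 * D) * (E * (1 / 4)) + (2 * D * E) * (1 / 4)) := by
            exact add_le_add h3 (h1.trans h2)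
        _ = (2 * D * E) * (1 / 2 + (1 / 4 + 1 / 4)) := by ring
        _ = 2 * D * E := by
            have : (1 / 2 + (1 / 4 + 1 / 4) : ℝ≥0∞) = 1 := by
              have h4 : (1 / 4 + 1 / 4 : ℝ≥0∞) = 1 / 2 := by
                rw [← ENNReal.toReal_eq_toReal_iff' (by norm_num) (by norm_num)]
                rw [ENNReal.toReal_add (by norm_num) (by norm_num)]
                norm_num
              rw [h4]
              simp only [one_div]; exact ENNReal.inv_two_add_inv_two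
            rw [this, mul_one]
  intro n t ht
  refine (key n t ht).trans ?_
  have hT : Real.exp (Λ * t) ≤ Real.exp (Λ * T) :=
    Real.exp_le_exp.2 (mul_le_mul_of_nonneg_left ht.2 hΛ0.le)
  calc 2 * (D : ℝ≥0∞) * ENNReal.ofReal (Real.exp (Λ * t))
      = ENNReal.ofReal (2 * D * Real.exp (Λ * t)) := by
        rw [ENNReal.ofReal_mul (by positivity), ENNReal.ofReal_mul (by norm_num),
          ENNReal.ofReal_coe_nnreal]
        norm_num
    _ ≤ ENNReal.ofReal (2 * D * Real.exp (Λ * T)) := ENNReal.ofReal_le_ofReal (by gcongr)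
    _ = _ := rfl

end Pool.Agent.Run7.h503.AX
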