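import Pool.Agent.Run7.h503.AX.CRT

/-! Piece WG1 of project AX. -/

set_option autoImplicit false

open MeasureTheory Set Filter Topology
open scoped ENNReal ContDiff FourierTransform

namespace Pool.Agent.Run7.h503.AX

open Pool.Agent.Run7.h148.AX

theorem real_ht (κ : ℝ) (hκ : 0 < κ) (ξ : E3) (r : ℝ) (hr : 0 < r) :
    ‖ξ‖ * ht κ ξ r ≤ κ ^ (-(1 / 2) : ℝ) * r ^ (-(1 / 2) : ℝ) := by
  rw [← Real.mul_rpow hκ.le hr.le, Real.rpow_neg (by positivity), ← Real.sqrt_eq_rpow]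
  set q := √(κ * r) with hq
  have hq0 : 0 < q := Real.sqrt_pos.2 (by positivity)
  have hq2 : q ^ 2 = κ * r := Real.sq_sqrt (by positivity)
  have h1 : κ * ‖ξ‖ ^ 2 * r = (‖ξ‖ * q) ^ 2 := by rw [mul_pow, hq2]; ring
  have h2 : (‖ξ‖ * q) * Real.exp (-(‖ξ‖ * q) ^ 2) ≤ 1 := by
    set x := ‖ξ‖ * q
    have h3 : x ≤ Real.exp (x ^ 2) := by
      have := Real.add_one_le_exp (x ^ 2)
      nlinarith [sq_nonneg (x - 1)]
    calc x * Real.exp (-x ^ 2) ≤ Real.exp (x ^ 2) * Real.exp (-x ^ 2) := by gcongr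
      _ = 1 := by rw [← Real.exp_add]; simp
  unfold ht
  rw [h1, ← one_div, le_div_iff₀ hq0]
  calc ‖ξ‖ * Real.exp (-(‖ξ‖ * q) ^ 2) * q = (‖ξ‖ * q) * Real.exp (-(‖ξ‖ * q) ^ 2) := by ring
    _ ≤ 1 := h2

theorem nw_ht (κ : ℝ) (hκ : 0 < κ) (ξ : E3) (r : ℝ) (hr : 0 < r) :
    nw ξ * ENNReal.ofReal (ht κ ξ r) ≤
      ENNReal.ofReal (κ ^ (-(1 / 2) : ℝ)) * ENNReal.ofReal (r ^ (-(1 / 2) : ℝ)) := by
  unfold nw
  rw [← ENNReal.ofReal_mul (norm_nonneg _), ← ENNReal.ofReal_mul (by positivity)]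
  exact ENNReal.ofReal_le_ofReal (real_ht κ hκ ξ r hr)

theorem ht_le (κ : ℝ) (hκ : 0 < κ) (ξ : E3) (r : ℝ) (hr : 0 ≤ r) :
    ENNReal.ofReal (ht κ ξ r) ≤ 1 := by
  rw [ENNReal.ofReal_le_one]
  unfold ht
  exact Real.exp_le_one_iff.2 (by have : 0 ≤ κ * ‖ξ‖ ^ 2 * r := by positivity
                                  linarith)

/-- Tonelli for a weight and the Duhamel integral. -/
theorem dh_swap (κ : ℝ) (w : E3 → ℝ≥0∞) (hw : Measurable w) (F : ℝ → E3 → ℝ≥0∞)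
    (hF : Measurable (Function.uncurry F)) (t : ℝ) :
    (∫⁻ ξ, w ξ * dh κ F t ξ) =
      ∫⁻ s in Ioc 0 t, ∫⁻ ξ, w ξ * (ENNReal.ofReal (ht κ ξ (t - s)) * F s ξ) := by
  have hm : Measurable fun p : E3 × ℝ => w p.1 * (ENNReal.ofReal (ht κ p.1 (t - p.2)) * F p.2 p.1) := by
    have h1 : Measurable fun p : E3 × ℝ => ENNReal.ofReal (ht κ p.1 (t - p.2)) := by
      unfold ht; fun_prop
    have h2 : Measurable fun p : E3 × ℝ => F p.2 p.1 := hF.comp measurable_swap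
    exact (hw.comp measurable_fst).mul (h1.mul h2)
  rw [← lintegral_lintegral_swap hm.aemeasurable]
  refine lintegral_congr (fun ξ => ?_)
  unfold dh
  rw [← lintegral_const_mul]
  have h1 : Measurable fun s : ℝ => ENNReal.ofReal (ht κ ξ (t - s)) := by
    unfold ht; fun_prop
  have h2 : Measurable fun s : ℝ => F s ξ := hF.comp (measurable_id.prodMk measurable_const)
  exact h1.mul h2

theorem t_WG1 : S_CVM → S_ITM → S_WK1 → S_GRO → S_WG1 := by
  intro hCVM hITM hWK1 hGRO κ T B f h hκ hT hf hh hfh hY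
  have hitm : ∀ n, Measurable (Function.uncurry (itm κ f h n)) := fun n => (hITM.2 κ f h hf hh n).1
  set cκ : NNReal := Real.toNNReal (κ ^ (-(1 / 2) : ℝ)) with hcκ
  have hcκ' : ENNReal.ofReal (κ ^ (-(1 / 2) : ℝ)) = (cκ : ℝ≥0∞) := rfl
  obtain ⟨M, hM⟩ := hGRO (80 * B * cκ) (Real.toNNReal T * B) T
  refine ⟨M, hM (fun n t => ∫⁻ ξ, itm κ f h n t ξ)
    (fun n t => 80 * ∫⁻ ξ, nw ξ * itm κ f h n t ξ) ?_ ?_ ?_ ?_ ?_⟩
  · intro n
    exact Measurable.lintegral_prod_right' (hitm n)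
  · intro n
    have : Measurable fun p : ℝ × E3 => nw p.2 * itm κ f h n p.1 p.2 :=
      (nw_meas.comp measurable_snd).mul (hitm n)
    exact (Measurable.lintegral_prod_right' this).const_mul 80
  · intro n
    have h80 : (80 : ℝ≥0∞) ≠ ⊤ := by norm_num
    simp only [lintegral_const_mul' _ _ h80]
    have h1 : (∫⁻ t in Ioc 0 T, ∫⁻ ξ, nw ξ * itm κ f h n t ξ) ≤ ENNReal.ofReal (1 / 6400) := by
      have h2 := hY n
      rw [show κ / 6400 = κ * (1 / 6400) by ring, ENNReal.ofReal_mul hκ.le] at h2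
      exact (ENNReal.mul_le_mul_iff_right (by simpa using hκ) ENNReal.ofReal_ne_top).1 h2
    calc 80 * (∫⁻ t in Ioc 0 T, ∫⁻ ξ, nw ξ * itm κ f h n t ξ)
        ≤ 80 * ENNReal.ofReal (1 / 6400) := by gcongr
      _ = ENNReal.ofReal 80 * ENNReal.ofReal (1 / 6400) := by norm_num
      _ = ENNReal.ofReal (80 * (1 / 6400)) := (ENNReal.ofReal_mul (by norm_num)).symm
      _ ≤ ENNReal.ofReal (1 / 4) := ENNReal.ofReal_le_ofReal (by norm_num)
      _ = 1 / 4 := by rw [ENNReal.ofReal_div_of_pos (by norm_num)]; norm_num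
  · intro t
    simp [itm]
  · intro n t htT
    show (∫⁻ ξ, dh κ (src f h (itm κ f h n)) t ξ) ≤ _
    set m := itm κ f h n with hm
    have hsw := dh_swap κ (fun _ => 1) measurable_const (src f h m) (src_meas hf hh (hitm n)) t
    simp only [one_mul] at hsw
    rw [hsw, setLIntegral_congr Ioo_ae_eq_Ioc.symm]
    -- pointwise in time
    have hpt : ∀ s ∈ Ioo 0 t, (∫⁻ ξ, ENNReal.ofReal (ht κ ξ (t - s)) * src f h m s ξ) ≤
        B + (((80 * B * cκ : NNReal) : ℝ≥0∞) * ENNReal.ofReal ((t - s) ^ (-(1 / 2) : ℝ)) +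
          80 * ∫⁻ ξ, nw ξ * m s ξ) * ∫⁻ ξ, m s ξ := by
      intro s hs
      have hsT : s ∈ Icc 0 T := ⟨hs.1.le, hs.2.le.trans htT.2⟩
      have hts : 0 < t - s := sub_pos.2 hs.2
      have hms : Measurable (m s) := (hitm n).comp (measurable_const.prodMk measurable_id)
      have hhs : Measurable (h s) := hh.comp (measurable_const.prodMk measurable_id)
      have hfs : Measurable (f s) := hf.comp (measurable_const.prodMk measurable_id)
      obtain ⟨c1m, c1⟩ := hCVM.1 (h s) (m s) hhs hms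
      obtain ⟨c2m, c2⟩ := hCVM.1 (m s) (h s) hms hhs
      obtain ⟨c3m, c3⟩ := hCVM.1 (m s) (m s) hms hms
      set Kk : ℝ≥0∞ := (cκ : ℝ≥0∞) * ENNReal.ofReal ((t - s) ^ (-(1 / 2) : ℝ)) with hKk
      have hb : ∀ ξ, ENNReal.ofReal (ht κ ξ (t - s)) * src f h m s ξ ≤
          f s ξ + (40 * Kk * (cv (h s) (m s) ξ + cv (m s) (h s) ξ) +
            40 * (nw ξ * cv (m s) (m s) ξ)) := by
        intro ξ
        have e1 : ENNReal.ofReal (ht κ ξ (t - s)) ≤ 1 := ht_le κ hκ ξ _ hts.le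
        have e2 : nw ξ * ENNReal.ofReal (ht κ ξ (t - s)) ≤ Kk := nw_ht κ hκ ξ _ hts
        unfold src
        calc ENNReal.ofReal (ht κ ξ (t - s)) * (f s ξ + 40 * nw ξ *
              (cv (h s) (m s) ξ + cv (m s) (h s) ξ + cv (m s) (m s) ξ))
            = ENNReal.ofReal (ht κ ξ (t - s)) * f s ξ +
              (40 * (nw ξ * ENNReal.ofReal (ht κ ξ (t - s))) *
                (cv (h s) (m s) ξ + cv (m s) (h s) ξ) +
              ENNReal.ofReal (ht κ ξ (t - s)) * (40 * (nw ξ * cv (m s) (m s) ξ))) := by ring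
          _ ≤ 1 * f s ξ + (40 * Kk * (cv (h s) (m s) ξ + cv (m s) (h s) ξ) +
              1 * (40 * (nw ξ * cv (m s) (m s) ξ))) := by gcongr
          _ = _ := by rw [one_mul, one_mul]
      have w3 := (hWK1 (m s) (m s) hms hms).2.2
      have A2 : Measurable fun ξ => cv (h s) (m s) ξ + cv (m s) (h s) ξ := c1m.add c2m
      have A1 : Measurable fun ξ => 40 * Kk * (cv (h s) (m s) ξ + cv (m s) (h s) ξ) :=
        A2.const_mul _
      have A3 : Measurable fun ξ => nw ξ * cv (m s) (m s) ξ := nw_meas.mul c3m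
      calc (∫⁻ ξ, ENNReal.ofReal (ht κ ξ (t - s)) * src f h m s ξ)
          ≤ ∫⁻ ξ, (f s ξ + (40 * Kk * (cv (h s) (m s) ξ + cv (m s) (h s) ξ) +
            40 * (nw ξ * cv (m s) (m s) ξ))) := lintegral_mono hb
        _ = (∫⁻ ξ, f s ξ) + (40 * Kk * ((∫⁻ ξ, cv (h s) (m s) ξ) + ∫⁻ ξ, cv (m s) (h s) ξ) +
            40 * ∫⁻ ξ, nw ξ * cv (m s) (m s) ξ) := by
            rw [lintegral_add_left hfs, lintegral_add_left A1,
              lintegral_const_mul _ A2, lintegral_add_left c1m,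
              lintegral_const_mul _ A3]
        _ ≤ B + (40 * Kk * (B * (∫⁻ ξ, m s ξ) + (∫⁻ ξ, m s ξ) * B) +
            40 * ((∫⁻ ξ, nw ξ * m s ξ) * (∫⁻ ξ, m s ξ) +
              (∫⁻ ξ, m s ξ) * ∫⁻ ξ, nw ξ * m s ξ)) := by
            rw [c1, c2]
            gcongr
            · exact (hfh s hsT).1
            · exact (hfh s hsT).2
            · exact (hfh s hsT).2
        _ = B + (((80 * B * cκ : NNReal) : ℝ≥0∞) * ENNReal.ofReal ((t - s) ^ (-(1 / 2) : ℝ)) +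
          80 * ∫⁻ ξ, nw ξ * m s ξ) * ∫⁻ ξ, m s ξ := by
            rw [hKk]; push_cast; ring
    calc (∫⁻ s in Ioo 0 t, ∫⁻ ξ, ENNReal.ofReal (ht κ ξ (t - s)) * src f h m s ξ)
        ≤ ∫⁻ s in Ioo 0 t, (B + (((80 * B * cκ : NNReal) : ℝ≥0∞) *
          ENNReal.ofReal ((t - s) ^ (-(1 / 2) : ℝ)) +
          80 * ∫⁻ ξ, nw ξ * m s ξ) * ∫⁻ ξ, m s ξ) := setLIntegral_mono' measurableSet_Ioo hpt
      _ = (∫⁻ s in Ioo 0 t, (B : ℝ≥0∞)) + ∫⁻ s in Ioo 0 t, (((80 * B * cκ : NNReal) : ℝ≥0∞) *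
          ENNReal.ofReal ((t - s) ^ (-(1 / 2) : ℝ)) +
          80 * ∫⁻ ξ, nw ξ * m s ξ) * ∫⁻ ξ, m s ξ := lintegral_add_left measurable_const _
      _ ≤ _ := by
          refine add_le_add ?_ (lintegral_mono_set Ioo_subset_Ioc_self)
          rw [lintegral_const, Measure.restrict_apply_univ, Real.volume_Ioo, sub_zero,
            ENNReal.coe_mul, mul_comm]
          gcongr
          exact ENNReal.ofReal_le_ofReal htT.2

end Pool.Agent.Run7.h503.AX
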