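import Pool.Agent.Run7.h148.AX.Stm4

/-! Piece JCN of project AX. -/

set_option autoImplicit false

open MeasureTheory Set Filter Topology
open scoped ENNReal ContDiff FourierTransform

namespace Pool.Agent.Run7.h503.AX.JC

open Pool.Agent.Run7.h148.AX

theorem nw_meas : Measurable nw := by unfold nw; fun_prop

theorem iw_meas : Measurable iw := by unfold iw; fun_prop

theorem ht_nonneg (κ : ℝ) (ξ : E3) (r : ℝ) : 0 ≤ ht κ ξ r := (Real.exp_pos _).le

theorem ht_le (κ : ℝ) (hκ : 0 < κ) (ξ : E3) (r : ℝ) (hr : 0 ≤ r) : ht κ ξ r ≤ 1 := by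
  unfold ht
  exact Real.exp_le_one_iff.2 (by have : 0 ≤ κ * ‖ξ‖ ^ 2 * r := by positivity
                                  linarith)

theorem hev_enorm (κ : ℝ) (w : E3 → C3) (t : ℝ) (ξ : E3) :
    ‖hev κ w t ξ‖ₑ = ENNReal.ofReal (ht κ ξ (max t 0)) * ‖w ξ‖ₑ := by
  unfold hev
  rw [enorm_smul, Real.enorm_eq_ofReal (ht_nonneg _ _ _)]

theorem heat_time (κ : ℝ) (hκ : 0 < κ) (ξ : E3) (T : ℝ) :
    nw ξ * (∫⁻ t in Ioc 0 T, ENNReal.ofReal (ht κ ξ t)) ≤ ENNReal.ofReal (1 / κ) * iw ξ := by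
  by_cases hξ : ξ = 0
  · subst hξ; simp [nw]
  have hn : 0 < ‖ξ‖ := norm_pos_iff.2 hξ
  set c : ℝ := κ * ‖ξ‖ ^ 2 with hc
  have hc0 : 0 < c := by positivity
  have hI : IntegrableOn (fun t : ℝ => Real.exp (-c * t)) (Ioi 0) :=
    integrableOn_exp_mul_Ioi (by linarith) 0
  have hv : ∫ t in Ioi (0 : ℝ), Real.exp (-c * t) = 1 / c := by
    rw [integral_exp_mul_Ioi (by linarith : -c < 0) 0]
    simp
  have h1 : (∫⁻ t in Ioc 0 T, ENNReal.ofReal (ht κ ξ t)) ≤ ENNReal.ofReal (1 / c) := by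
    calc (∫⁻ t in Ioc 0 T, ENNReal.ofReal (ht κ ξ t))
        ≤ ∫⁻ t in Ioi 0, ENNReal.ofReal (ht κ ξ t) := lintegral_mono_set Ioc_subset_Ioi_self
      _ = ∫⁻ t in Ioi 0, ENNReal.ofReal (Real.exp (-c * t)) := by
          refine lintegral_congr (fun t => ?_)
          unfold ht; rw [hc]; congr 2; ring
      _ = ENNReal.ofReal (∫ t in Ioi (0 : ℝ), Real.exp (-c * t)) :=
          (ofReal_integral_eq_lintegral_ofReal hI
            (Eventually.of_forall (fun t => (Real.exp_pos _).le))).symm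
      _ = _ := by rw [hv]
  unfold nw iw
  calc ENNReal.ofReal ‖ξ‖ * (∫⁻ t in Ioc 0 T, ENNReal.ofReal (ht κ ξ t))
      ≤ ENNReal.ofReal ‖ξ‖ * ENNReal.ofReal (1 / c) := by gcongr
    _ = ENNReal.ofReal (‖ξ‖ * (1 / c)) := (ENNReal.ofReal_mul (norm_nonneg _)).symm
    _ = ENNReal.ofReal (1 / κ * ‖ξ‖⁻¹) := by
        congr 1; rw [hc]; field_simp
    _ = _ := ENNReal.ofReal_mul (by positivity)

theorem t_JCN : S_CSX → S_JCN := by
  intro hCSX κ δ w hκ hδ hw hwδ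
  obtain ⟨hwm, hwk⟩ := hw
  have hhm : Measurable fun p : ℝ × E3 => ht κ p.2 (max p.1 0) := by unfold ht; fun_prop
  have hwn : Measurable fun ξ => ‖w ξ‖ₑ := hwm.enorm
  have hmeas : Measurable (Function.uncurry (hev κ w)) := by
    have : Function.uncurry (hev κ w) = fun p : ℝ × E3 => ht κ p.2 (max p.1 0) • w p.2 := by
      funext p; rfl
    rw [this]
    exact hhm.smul (hwm.comp measurable_snd)
  have hle1 : ∀ t ξ, ENNReal.ofReal (ht κ ξ (max t 0)) ≤ 1 := fun t ξ =>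
    ENNReal.ofReal_le_one.2 (ht_le κ hκ ξ _ (le_max_right _ _))
  have hlew : ∀ t ξ, nm (hev κ w) t ξ ≤ ‖w ξ‖ₑ := by
    intro t ξ
    show ‖hev κ w t ξ‖ₑ ≤ _
    rw [hev_enorm]
    exact mul_le_of_le_one_left' (hle1 t ξ)
  have hnmm : Measurable (Function.uncurry (nm (hev κ w))) := hmeas.enorm
  refine ⟨⟨hmeas, hnmm, fun k T => ?_⟩, fun t => ?_, ?_⟩
  · obtain ⟨M, hM1, hM2⟩ := hwk k
    refine ⟨M, fun t _ => ⟨?_, fun ξ => ?_⟩⟩
    · refine le_trans (lintegral_mono (fun ξ => ?_)) hM1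
      exact mul_le_mul' le_rfl (hlew t ξ)
    · exact (mul_le_mul' le_rfl (hlew t ξ)).trans (hM2 ξ)
  · refine le_trans (lintegral_mono (fun ξ => ?_)) hwδ
    exact mul_le_mul' le_rfl (hlew t ξ)
  -- the function J
  obtain ⟨M0, hM0, -⟩ := hwk 0
  have hw1 : (∫⁻ ξ, ‖w ξ‖ₑ) < ⊤ := by
    refine lt_of_le_of_lt ?_ (lt_of_le_of_lt hM0 ENNReal.coe_lt_top)
    refine lintegral_mono (fun ξ => ?_)
    simp [wk]
  have hwint : Integrable w := ⟨hwm.aestronglyMeasurable, hw1⟩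
  have hwn' : Integrable (fun ξ => ‖w ξ‖) := hwint.norm
  set J : ℝ → ℝ := fun t => ∫ ξ, ht κ ξ (max t 0) * ‖w ξ‖ with hJ
  have hJm : ∀ t, Measurable fun ξ => ht κ ξ (max t 0) * ‖w ξ‖ := fun t =>
    (hhm.comp (measurable_const.prodMk measurable_id)).mul hwm.norm
  have hJb : ∀ t ξ, ‖ht κ ξ (max t 0) * ‖w ξ‖‖ ≤ ‖w ξ‖ := by
    intro t ξ
    rw [Real.norm_eq_abs, abs_of_nonneg (mul_nonneg (ht_nonneg _ _ _) (norm_nonneg _))]
    exact mul_le_of_le_one_left (norm_nonneg _) (ht_le κ hκ ξ _ (le_max_right _ _))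
  have hJi : ∀ t, Integrable fun ξ => ht κ ξ (max t 0) * ‖w ξ‖ := fun t =>
    hwn'.mono' (hJm t).aestronglyMeasurable (Eventually.of_forall (hJb t))
  have hJ0 : ∀ t, 0 ≤ J t := fun t =>
    integral_nonneg (fun ξ => mul_nonneg (ht_nonneg _ _ _) (norm_nonneg _))
  have hJc : Continuous J := by
    refine continuous_of_dominated (fun t => (hJm t).aestronglyMeasurable)
      (fun t => Eventually.of_forall (hJb t)) hwn' (Eventually.of_forall (fun ξ => ?_))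
    unfold ht; fun_prop
  have hJe : ∀ t, (∫⁻ ξ, nm (hev κ w) t ξ) = ENNReal.ofReal (J t) := by
    intro t
    rw [hJ]
    simp only
    rw [ofReal_integral_eq_lintegral_ofReal (hJi t)
      (Eventually.of_forall (fun ξ => mul_nonneg (ht_nonneg _ _ _) (norm_nonneg _)))]
    refine lintegral_congr (fun ξ => ?_)
    show ‖hev κ w t ξ‖ₑ = _
    rw [hev_enorm, ENNReal.ofReal_mul (ht_nonneg _ _ _), ofReal_norm]
  refine ⟨J, hJc, hJ0, fun t => (hJe t).le, fun T hT => ?_⟩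
  -- square integral
  have hsq : ∀ t, ENNReal.ofReal (J t ^ 2) ≤
      ENNReal.ofReal δ * ∫⁻ ξ, nw ξ * nm (hev κ w) t ξ := by
    intro t
    have hmt : Measurable (nm (hev κ w) t) := by
      have h0 : Measurable fun ξ => ht κ ξ (max t 0) := by unfold ht; fun_prop
      exact (h0.smul hwm).enorm
    have h1 := hCSX (nm (hev κ w) t) hmt
    rw [hJe t, ← ENNReal.ofReal_pow (hJ0 t)] at h1
    refine h1.trans ?_
    gcongr
    refine le_trans (lintegral_mono (fun ξ => ?_)) hwδ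
    exact mul_le_mul' le_rfl (hlew t ξ)
  have hsw : Measurable fun p : ℝ × E3 => nw p.2 * (ENNReal.ofReal (ht κ p.2 p.1) * ‖w p.2‖ₑ) := by
    have h1 : Measurable fun p : ℝ × E3 => ENNReal.ofReal (ht κ p.2 p.1) := by unfold ht; fun_prop
    exact (nw_meas.comp measurable_snd).mul (h1.mul (hwn.comp measurable_snd))
  have hfin : (∫⁻ t in Ioc 0 T, ENNReal.ofReal (J t ^ 2)) ≤ ENNReal.ofReal (δ ^ 2 / κ) := by
    calc (∫⁻ t in Ioc 0 T, ENNReal.ofReal (J t ^ 2))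
        ≤ ∫⁻ t in Ioc 0 T, ENNReal.ofReal δ * ∫⁻ ξ, nw ξ * (ENNReal.ofReal (ht κ ξ t) * ‖w ξ‖ₑ) := by
          refine setLIntegral_mono' measurableSet_Ioc (fun t ht' => ?_)
          refine (hsq t).trans (le_of_eq ?_)
          congr 1
          refine lintegral_congr (fun ξ => ?_)
          show nw ξ * ‖hev κ w t ξ‖ₑ = _
          rw [hev_enorm, max_eq_left ht'.1.le]
      _ = ENNReal.ofReal δ * ∫⁻ t in Ioc 0 T, ∫⁻ ξ, nw ξ * (ENNReal.ofReal (ht κ ξ t) * ‖w ξ‖ₑ) :=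
          lintegral_const_mul' _ _ ENNReal.ofReal_ne_top
      _ = ENNReal.ofReal δ * ∫⁻ ξ, ∫⁻ t in Ioc 0 T, nw ξ * (ENNReal.ofReal (ht κ ξ t) * ‖w ξ‖ₑ) := by
          congr 1
          exact lintegral_lintegral_swap hsw.aemeasurable
      _ ≤ ENNReal.ofReal δ * ∫⁻ ξ, ENNReal.ofReal (1 / κ) * (iw ξ * ‖w ξ‖ₑ) := by
          refine mul_le_mul' le_rfl (lintegral_mono (fun ξ => ?_))
          have hmt : Measurable fun t : ℝ => ENNReal.ofReal (ht κ ξ t) := by unfold ht; fun_prop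
          have e1 : (∫⁻ t in Ioc 0 T, nw ξ * (ENNReal.ofReal (ht κ ξ t) * ‖w ξ‖ₑ))
              = (nw ξ * ∫⁻ t in Ioc 0 T, ENNReal.ofReal (ht κ ξ t)) * ‖w ξ‖ₑ := by
            rw [lintegral_const_mul _ (hmt.mul_const _), lintegral_mul_const _ hmt, mul_assoc]
          rw [e1, ← mul_assoc]
          exact mul_le_mul' (heat_time κ hκ ξ T) le_rfl
      _ = ENNReal.ofReal δ * (ENNReal.ofReal (1 / κ) * ∫⁻ ξ, iw ξ * ‖w ξ‖ₑ) := by
          rw [lintegral_const_mul' _ _ ENNReal.ofReal_ne_top]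
      _ ≤ ENNReal.ofReal δ * (ENNReal.ofReal (1 / κ) * ENNReal.ofReal δ) := by gcongr
      _ = ENNReal.ofReal (δ ^ 2 / κ) := by
          rw [← ENNReal.ofReal_mul (by positivity), ← ENNReal.ofReal_mul hδ]
          congr 1; ring
  have hJ2 : IntegrableOn (fun t => J t ^ 2) (Ioc 0 T) :=
    ((hJc.pow 2).integrableOn_Icc (a := 0) (b := T)).mono_set Ioc_subset_Icc_self
  rw [intervalIntegral.integral_of_le hT]
  rw [← ofReal_integral_eq_lintegral_ofReal hJ2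
    (Eventually.of_forall (fun t => sq_nonneg _))] at hfin
  exact (ENNReal.ofReal_le_ofReal_iff (by positivity)).1 hfin

end Pool.Agent.Run7.h503.AX.JC
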