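import Pool.Agent.Run7.h148.AX.Stm4

/-! Piece NSB of project AX. -/

set_option autoImplicit false

open MeasureTheory Set Filter Topology
open scoped ENNReal ContDiff FourierTransform

namespace Pool.Agent.Run7.h503.AX.NS

open Pool.Agent.Run7.h148.AX

theorem iw_meas : Measurable iw := by unfold iw; fun_prop

theorem exp_neg_le (y : ℝ) (hy : 0 < y) : Real.exp (-y) ≤ 1 / y := by
  rw [Real.exp_neg, ← one_div]
  exact one_div_le_one_div_of_le hy (by linarith [Real.add_one_le_exp y])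

theorem t_NSB : S_OPN → S_GB1 → S_GB2 → S_GEQ → S_NSB := by
  intro hOPN hGB1 hGB2 hGEQ ν A ε hν hA hε
  set κ : ℝ := 4 * Real.pi ^ 2 * ν with hκd
  have hκ : 0 < κ := by positivity
  obtain ⟨C, hC0, hC⟩ := hGB2 ν A hν hA
  set E : ℝ := Real.exp (25600 / κ * (2 * C + 2 / κ)) with hE
  have hE0 : 0 < E := Real.exp_pos _
  set Q : ℝ := 80 * √(C / κ) + 40 / κ with hQ
  have hQ0 : 0 ≤ Q := by positivity
  set m : ℝ := min (κ / (25600 * E)) (ε / (16 * E)) with hm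
  have hm0 : 0 < m := lt_min (by positivity) (by positivity)
  have hmκ : 25600 * m * E ≤ κ := by
    have h1 : m ≤ κ / (25600 * E) := min_le_left _ _
    rw [le_div_iff₀ (by positivity)] at h1
    linarith
  have hmε : 4 * m * E ≤ ε / 4 := by
    have h1 : m ≤ ε / (16 * E) := min_le_right _ _
    rw [le_div_iff₀ (by positivity)] at h1
    linarith
  set δ : ℝ := min 1 (min (ε / 4) (m / (2 * (Q + 1)))) with hδ
  have hδ0 : 0 < δ := lt_min one_pos (lt_min (by positivity) (by positivity))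
  have hδ1 : δ ≤ 1 := min_le_left _ _
  have hδε : δ ≤ ε / 4 := (min_le_right _ _).trans (min_le_left _ _)
  have hδm : δ * Q ≤ m / 2 := by
    have h1 : δ ≤ m / (2 * (Q + 1)) := (min_le_right _ _).trans (min_le_right _ _)
    rw [le_div_iff₀ (by positivity)] at h1
    nlinarith
  set c : ℝ := ν * ε / 2 with hc
  have hc0 : 0 < c := by positivity
  obtain ⟨n₀, hn₀⟩ := exists_nat_ge (max (2 * C / m) (2 * C / (c * ε)))
  refine ⟨δ, n₀, hδ0, fun n hn w hw hws hwδ => ?_⟩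
  have hN0 : 0 < NN n := by unfold NN; positivity
  have hNX : max (2 * C / m) (2 * C / (c * ε)) ≤ NN n := by
    unfold NN
    have : (n₀ : ℝ) ≤ n := by exact_mod_cast hn
    linarith
  have hη : C / NN n ≤ m / 2 := by
    have h1 : 2 * C / m ≤ NN n := (le_max_left _ _).trans hNX
    rw [div_le_iff₀ hm0] at h1
    rw [div_le_iff₀ hN0]
    linarith
  have hgε : C * NN n * Real.exp (-(ν * NN n ^ 2 * ε / 2)) ≤ ε / 2 := by
    have h1 : 2 * C / (c * ε) ≤ NN n := (le_max_right _ _).trans hNX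
    rw [div_le_iff₀ (by positivity)] at h1
    have h2 : Real.exp (-(ν * NN n ^ 2 * ε / 2)) ≤ 1 / (c * NN n ^ 2) := by
      have h3 := exp_neg_le (c * NN n ^ 2) (by positivity)
      have h4 : ν * NN n ^ 2 * ε / 2 = c * NN n ^ 2 := by rw [hc]; ring
      rw [h4]; exact h3
    calc C * NN n * Real.exp (-(ν * NN n ^ 2 * ε / 2)) ≤ C * NN n * (1 / (c * NN n ^ 2)) := by
          gcongr
      _ = C / (c * NN n) := by field_simp
      _ ≤ ε / 2 := by
          rw [div_le_iff₀ (by positivity)]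
          nlinarith
  obtain ⟨⟨H, hHc, hH0, hHK, hHg⟩, hR, hg⟩ := hC n
  obtain ⟨gt, rt', gs, rs⟩ := hGB1 ν A hν hA n
  have hδ2 : δ ^ 2 ≤ 1 := by nlinarith
  have hδ2' : δ ^ 2 ≤ δ := by nlinarith
  set q : ℝ := C / NN n + 80 * δ * √(C / κ) + 40 * δ ^ 2 / κ with hq
  have hq0 : 0 ≤ q := by positivity
  have hqm : q ≤ m := by
    have h1 : 40 * δ ^ 2 / κ ≤ δ * (40 / κ) := by
      have : 40 * δ ^ 2 / κ = δ ^ 2 * (40 / κ) := by ring
      rw [this]; gcongr
    have h2 : δ * Q = 80 * δ * √(C / κ) + δ * (40 / κ) := by rw [hQ]; ring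
    linarith
  have hexp : Real.exp (25600 / κ * (2 * C + 2 * δ ^ 2 / κ)) ≤ E := by
    rw [hE]
    refine Real.exp_le_exp.2 ?_
    have : 2 * δ ^ 2 / κ ≤ 2 / κ := by
      gcongr; linarith
    gcongr
  have hqE : q * Real.exp (25600 / κ * (2 * C + 2 * δ ^ 2 / κ)) ≤ m * E :=
    mul_le_mul hqm hexp (Real.exp_pos _).le hm0.le
  obtain ⟨u, hu1, hu2, hu3, hu4, hu5⟩ := hOPN κ C (C / NN n) δ H (Rr ν A n) (gg ν A n) w hκ hC0
    (by positivity) hδ0.le hHc hH0 hHK rt' gt rs gs hw hws hwδ hHg hR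
    (by rw [← hq]; nlinarith) (fun t ht ξ => hGEQ ν A hν hA n t ht ξ)
  refine ⟨u, hu1, hu2, hu3, hu4, fun t ht => ?_⟩
  have ht0 : 0 ≤ t := hε.le.trans ht
  have hgm : Measurable fun ξ => iw ξ * ‖gg ν A n t ξ‖ₑ := by
    have : Measurable (gg ν A n t) := gt.1.comp (measurable_const.prodMk measurable_id)
    exact iw_meas.mul this.enorm
  have hb := hu5 t ht0
  rw [← hq] at hb
  have hb' : δ + 4 * q * Real.exp (25600 / κ * (2 * C + 2 * δ ^ 2 / κ)) ≤ ε / 2 := by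
    nlinarith
  have hg' : C * NN n * Real.exp (-(ta ν n t / 2)) ≤ ε / 2 := by
    refine le_trans ?_ hgε
    have : ν * NN n ^ 2 * ε / 2 ≤ ta ν n t / 2 := by
      unfold ta; gcongr
    gcongr
  calc (∫⁻ ξ, iw ξ * ‖u t ξ‖ₑ)
      ≤ ∫⁻ ξ, (iw ξ * ‖u t ξ - gg ν A n t ξ‖ₑ + iw ξ * ‖gg ν A n t ξ‖ₑ) := by
        refine lintegral_mono (fun ξ => ?_)
        rw [← mul_add]
        refine mul_le_mul' le_rfl ?_
        calc ‖u t ξ‖ₑ = ‖(u t ξ - gg ν A n t ξ) + gg ν A n t ξ‖ₑ := by rw [sub_add_cancel]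
          _ ≤ _ := enorm_add_le _ _
    _ = (∫⁻ ξ, iw ξ * ‖u t ξ - gg ν A n t ξ‖ₑ) + ∫⁻ ξ, iw ξ * ‖gg ν A n t ξ‖ₑ :=
        lintegral_add_right _ hgm
    _ ≤ ENNReal.ofReal (ε / 2) + ENNReal.ofReal (ε / 2) := by
        refine add_le_add (hb.trans (ENNReal.ofReal_le_ofReal hb'))
          ((hg t ht0).trans (ENNReal.ofReal_le_ofReal hg'))
    _ = ENNReal.ofReal ε := by
        rw [← ENNReal.ofReal_add (by positivity) (by positivity)]; congr 1; ring

end Pool.Agent.Run7.h503.AX.NS
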