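import Pool.Agent.Run7.h148.AX.Stm4

/-! Piece TMN of project AX. -/

set_option autoImplicit false

open MeasureTheory Set Filter Topology
open scoped ENNReal ContDiff FourierTransform

namespace Pool.Agent.Run7.h503.AX

open Pool.Agent.Run7.h148.AX

theorem wk_nw (k : ℕ) (ξ : E3) : wk k ξ * nw ξ ≤ wk (k + 1) ξ := by
  unfold wk nw
  rw [← ENNReal.ofReal_mul (by positivity)]
  refine ENNReal.ofReal_le_ofReal ?_
  rw [pow_succ]
  gcongr
  linarith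

theorem one_le_wk (k : ℕ) (ξ : E3) : 1 ≤ wk k ξ := by
  unfold wk
  rw [ENNReal.one_le_ofReal]
  exact one_le_pow₀ (by linarith [norm_nonneg ξ])

theorem t_TMN : S_NLB → S_NLM → S_CVM → S_WK1 → S_TMN := by
  intro hNLB hNLM _ hWK1 a b ha hb
  have hm := hNLM a b ha.1 hb.1
  refine ⟨hm, ?_, ?_⟩
  · exact hm.enorm
  intro k T
  obtain ⟨Ma, hMa⟩ := ha.2.2 (k + 1) T
  obtain ⟨Mb, hMb⟩ := hb.2.2 (k + 1) T
  refine ⟨40 * (2 ^ (k + 1) * (Ma * Mb + Ma * Mb)), fun t ht => ?_⟩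
  obtain ⟨a1, a2⟩ := hMa t ht
  obtain ⟨b1, b2⟩ := hMb t ht
  have hat : Measurable (nm a t) := by
    have : Measurable (a t) := ha.1.comp (measurable_const.prodMk measurable_id)
    exact this.enorm
  have hbt : Measurable (nm b t) := by
    have : Measurable (b t) := hb.1.comp (measurable_const.prodMk measurable_id)
    exact this.enorm
  have a0 : (∫⁻ ξ, nm a t ξ) ≤ Ma := by
    refine le_trans (lintegral_mono (fun ξ => ?_)) a1
    exact le_mul_of_one_le_left' (one_le_wk _ ξ)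
  have b0 : (∫⁻ ξ, nm b t ξ) ≤ Mb := by
    refine le_trans (lintegral_mono (fun ξ => ?_)) b1
    exact le_mul_of_one_le_left' (one_le_wk _ ξ)
  obtain ⟨w1, w2, -⟩ := hWK1 (nm a t) (nm b t) hat hbt
  have hpt : ∀ ξ, wk k ξ * nm (fun t ξ => nl (a t) (b t) ξ) t ξ ≤
      40 * (wk (k + 1) ξ * cv (nm a t) (nm b t) ξ) := by
    intro ξ
    calc wk k ξ * nm (fun t ξ => nl (a t) (b t) ξ) t ξ
        ≤ wk k ξ * (40 * nw ξ * cv (nm a t) (nm b t) ξ) := by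
          gcongr; exact hNLB (a t) (b t) ξ
      _ = 40 * ((wk k ξ * nw ξ) * cv (nm a t) (nm b t) ξ) := by ring
      _ ≤ _ := by gcongr; exact wk_nw k ξ
  constructor
  · calc (∫⁻ ξ, wk k ξ * nm (fun t ξ => nl (a t) (b t) ξ) t ξ)
        ≤ ∫⁻ ξ, 40 * (wk (k + 1) ξ * cv (nm a t) (nm b t) ξ) := lintegral_mono hpt
      _ = 40 * ∫⁻ ξ, (wk (k + 1) ξ * cv (nm a t) (nm b t) ξ) :=
          lintegral_const_mul' _ _ (by norm_num)
      _ ≤ 40 * (2 ^ (k + 1) * ((∫⁻ ξ, wk (k + 1) ξ * nm a t ξ) * (∫⁻ ξ, nm b t ξ) +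
          (∫⁻ ξ, nm a t ξ) * ∫⁻ ξ, wk (k + 1) ξ * nm b t ξ)) := by gcongr; exact w1 (k + 1)
      _ ≤ 40 * (2 ^ (k + 1) * (Ma * Mb + Ma * Mb)) := by gcongr
      _ = _ := by push_cast; ring
  · intro ξ
    calc wk k ξ * nm (fun t ξ => nl (a t) (b t) ξ) t ξ
        ≤ 40 * (wk (k + 1) ξ * cv (nm a t) (nm b t) ξ) := hpt ξ
      _ ≤ 40 * (2 ^ (k + 1) * (Ma * (∫⁻ ξ, nm b t ξ) + (∫⁻ ξ, nm a t ξ) * Mb)) := by
          exact mul_le_mul' le_rfl (w2 (k + 1) Ma Mb a2 b2 ξ)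
      _ ≤ 40 * (2 ^ (k + 1) * (Ma * Mb + Ma * Mb)) := by gcongr
      _ = _ := by push_cast; ring

end Pool.Agent.Run7.h503.AX
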